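import Pool.Agent.BED.Stmts
import Pool.Agent.Helper93_BEO.Fin

/-!
# Squad BED (MP_be01ff_an), row SPD: the radial spectrum of the disc
-/

set_option autoImplicit false

namespace Pool.Agent.BED.H76

open Set Filter Topology MeasureTheory
open scoped InnerProductSpace ENNReal
open Pool.Agent.BE01 Pool.Agent.BED
open Pool.Agent.BEO (Pl BB ev lap rho EvoStmt LpoStmt OroStmt)
open Pool.Agent.BEO.H10 (fin_mu ae_BB mem_BB int_ev I_add I_C LL OO LL_add LL_C LL_rho_pow)

noncomputable section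

/-- the moments -/
def mo {R : ℝ} (u : Lp ℝ 2 (mu (BB 2 R))) (k : ℕ) : ℝ :=
  ∫ z, u z * ev (rho 2 ^ k) z ∂(mu (BB 2 R))

theorem lap_one2 : lap (1 : Pl 2) = 0 := by
  unfold lap
  simp

theorem LL_one (EVO : EvoStmt) {R μ : ℝ} (u : Lp ℝ 2 (mu (BB 2 R))) :
    LL μ u (1 : Pl 2) = μ * mo u 0 := by
  unfold LL mo
  rw [lap_one2, zero_add, I_C EVO, pow_zero]

theorem LL_succ (EVO : EvoStmt) (LPO : LpoStmt) {R μ : ℝ} (u : Lp ℝ 2 (mu (BB 2 R))) (k : ℕ) :
    LL μ u (rho 2 ^ (k + 1)) = 4 * ((k : ℝ) + 1) ^ 2 * mo u k + μ * mo u (k + 1) := by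
  unfold LL mo
  have h := LPO 2 0 k (1 : Pl 2) (MvPolynomial.isHomogeneous_one _ _) lap_one2
  rw [mul_one, mul_one] at h
  rw [h, I_add EVO, I_C EVO, I_C EVO]
  push_cast
  ring

theorem bj_succ (k : ℕ) : 4 * ((k : ℝ) + 1) ^ 2 * bj (k + 1) = - bj k := by
  unfold bj
  have h1 : (k.factorial : ℝ) ≠ 0 := by positivity
  have h2 : ((k : ℝ) + 1) ≠ 0 := by positivity
  rw [Nat.factorial_succ, pow_succ, pow_succ]
  push_cast
  field_simp
  ring

/-- the first identity -/
theorem sum1 (μ R : ℝ) (m : ℕ → ℝ)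
    (hm : ∀ k : ℕ, 4 * ((k : ℝ) + 1) ^ 2 * m k + μ * m (k + 1) = (R ^ 2) ^ (k + 1) * (μ * m 0))
    (K : ℕ) : ∑ k ∈ Finset.range (K + 1), bj k * μ ^ k * ((R ^ 2) ^ k * (μ * m 0)) =
      bj K * μ ^ (K + 1) * m K := by
  induction K with
  | zero =>
    rw [Finset.sum_range_one]
    ring
  | succ K ih =>
    rw [Finset.sum_range_succ, ih, ← hm K]
    have h := bj_succ K
    have e : bj (K + 1) * μ ^ (K + 1) * (4 * ((K : ℝ) + 1) ^ 2 * m K + μ * m (K + 1)) =
        (4 * ((K : ℝ) + 1) ^ 2 * bj (K + 1)) * μ ^ (K + 1) * m K +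
          bj (K + 1) * μ ^ (K + 1 + 1) * m (K + 1) := by ring
    rw [e, h]
    ring

/-- the second identity -/
theorem sum2 (μ R : ℝ) (m : ℕ → ℝ)
    (hm : ∀ k : ℕ, 4 * ((k : ℝ) + 1) ^ 2 * m k + μ * m (k + 1) = (R ^ 2) ^ (k + 1) * (μ * m 0))
    (K : ℕ) :
    ∑ k ∈ Finset.range (K + 1), (k : ℝ) * bj k * μ ^ k * ((R ^ 2) ^ k * (μ * m 0)) =
      K * (bj K * μ ^ (K + 1) * m K) - μ * ∑ k ∈ Finset.range K, bj k * μ ^ k * m k := by
  induction K with
  | zero =>
    rw [Finset.sum_range_one, Finset.sum_range_zero]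
    push_cast
    ring
  | succ K ih =>
    rw [Finset.sum_range_succ, ih, ← hm K, Finset.sum_range_succ _ K]
    have h := bj_succ K
    have e : ((K + 1 : ℕ) : ℝ) * bj (K + 1) * μ ^ (K + 1) *
        (4 * ((K : ℝ) + 1) ^ 2 * m K + μ * m (K + 1)) =
        ((K : ℝ) + 1) * (4 * ((K : ℝ) + 1) ^ 2 * bj (K + 1)) * μ ^ (K + 1) * m K +
          ((K : ℝ) + 1) * bj (K + 1) * μ ^ (K + 1 + 1) * m (K + 1) := by
      push_cast
      ring
    rw [e, h]
    push_cast
    ring

theorem ev_rho (EVO : EvoStmt) (k : ℕ) (z : En 2) : ev (rho 2 ^ k) z = (‖z‖ ^ 2) ^ k := by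
  induction k with
  | zero =>
    have h := (EVO 2).2.2.2.2.1 1 z
    rw [MvPolynomial.C_1] at h
    rw [pow_zero, pow_zero, h]
  | succ k ih => rw [pow_succ, (EVO 2).2.2.2.1, ih, (EVO 2).2.2.2.2.2.1, pow_succ (‖z‖ ^ 2)]

theorem mo_bound (EVO : EvoStmt) {R : ℝ} (u : Lp ℝ 2 (mu (BB 2 R))) :
    ∃ M : ℝ, 0 ≤ M ∧ (∫ z, |u z| ∂(mu (BB 2 R)) = M) ∧ ∀ k : ℕ, |mo u k| ≤ M * (R ^ 2) ^ k := by
  have := fin_mu 2 R
  have hi : Integrable (fun z => u z) (mu (BB 2 R)) :=
    (Lp.memLp u).integrable (by norm_num)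
  refine ⟨∫ z, |u z| ∂(mu (BB 2 R)), integral_nonneg fun z => abs_nonneg _, rfl, fun k => ?_⟩
  unfold mo
  rw [← integral_mul_const]
  refine (abs_integral_le_integral_abs).trans ?_
  refine integral_mono_ae (int_ev EVO u _).abs (hi.abs.mul_const _) ?_
  filter_upwards [ae_BB 2 R] with z hz
  show |u z * ev (rho 2 ^ k) z| ≤ |u z| * (R ^ 2) ^ k
  rw [ev_rho EVO, abs_mul, abs_of_nonneg (by positivity : (0 : ℝ) ≤ (‖z‖ ^ 2) ^ k)]
  apply mul_le_mul_of_nonneg_left _ (abs_nonneg _)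
  apply pow_le_pow_left₀ (by positivity)
  apply pow_le_pow_left₀ (norm_nonneg _) (mem_BB hz).le

theorem summ2 (h : ∀ x : ℝ, Summable fun k : ℕ => bj k * x ^ (2 * k)) (x : ℝ) :
    Summable fun k : ℕ => 2 * (k : ℝ) * bj k * x ^ (2 * k) := by
  have h1 := ((h (2 * x)).abs).mul_left 2
  refine Summable.of_norm_bounded h1 fun k => ?_
  have h2 : (k : ℝ) ≤ 4 ^ k := by
    have h3 : k < 4 ^ k := Nat.lt_pow_self (by norm_num)
    exact_mod_cast h3.le
  rw [Real.norm_eq_abs]
  have h4 : |2 * (k : ℝ) * bj k * x ^ (2 * k)| = 2 * ((k : ℝ) * |bj k * x ^ (2 * k)|) := by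
    rw [mul_assoc, abs_mul, abs_of_nonneg (by positivity : (0 : ℝ) ≤ 2 * (k : ℝ)), mul_assoc]
  have h5 : |bj k * (2 * x) ^ (2 * k)| = 4 ^ k * |bj k * x ^ (2 * k)| := by
    have : bj k * (2 * x) ^ (2 * k) = 4 ^ k * (bj k * x ^ (2 * k)) := by
      rw [mul_pow, pow_mul 2 2 k]
      norm_num
      ring
    rw [this, abs_mul, abs_of_nonneg (by positivity : (0 : ℝ) ≤ (4 : ℝ) ^ k)]
  rw [h4, h5]
  apply mul_le_mul_of_nonneg_left _ (by norm_num)
  exact mul_le_mul_of_nonneg_right h2 (abs_nonneg _)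

theorem spd0 (EVO : EvoStmt) (LPO : LpoStmt) (ORO : OroStmt) (rde : RdeStmt) (jta : JtaStmt)
    (jde : JdeStmt) : SpdStmt := by
  intro R x u hR hx hrad hu
  obtain ⟨μ, hμd⟩ : ∃ μ : ℝ, μ = (x / R) ^ 2 := ⟨_, rfl⟩
  have hμ : 0 < μ := by
    rw [hμd]
    positivity
  rw [← hμd] at hu
  have hO : OO μ u := fun Q => ORO 2 R μ u Q (by norm_num) hR hu
  have hm : ∀ k : ℕ, 4 * ((k : ℝ) + 1) ^ 2 * mo u k + μ * mo u (k + 1) =
      (R ^ 2) ^ (k + 1) * (μ * mo u 0) := by
    intro k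
    have h := LL_rho_pow EVO μ u hO 1 (k + 1)
    rw [mul_one, LL_succ EVO LPO, LL_one EVO] at h
    exact h
  have hpow : ∀ k : ℕ, μ ^ k * (R ^ 2) ^ k = x ^ (2 * k) := by
    intro k
    rw [hμd, ← mul_pow, ← mul_pow, div_mul_cancel₀ x hR.ne', pow_mul]
  obtain ⟨M, hM0, hM1, hM⟩ := mo_bound EVO u
  have hsum := jta.1 x
  have hsum2 := summ2 jta.1 x
  -- the conclusion from `mo u 0 = 0`
  have fin : mo u 0 = 0 → u = 0 := by
    intro h0
    apply rde R u hR hrad
    intro b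
    show mo u b = 0
    induction b with
    | zero => exact h0
    | succ b ih =>
      have h := hm b
      rw [ih, h0, mul_zero, mul_zero, mul_zero, zero_add] at h
      rcases mul_eq_zero.mp h with h | h
      · exact absurd h hμ.ne'
      · exact h
  have hs : ∀ K : ℕ, |bj K * μ ^ (K + 1) * mo u K| ≤ μ * M * |bj K * x ^ (2 * K)| := by
    intro K
    rw [abs_mul, abs_mul, abs_of_nonneg (by positivity : (0 : ℝ) ≤ μ ^ (K + 1)), abs_mul,
      abs_of_nonneg (by positivity : (0 : ℝ) ≤ x ^ (2 * K))]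
    calc |bj K| * μ ^ (K + 1) * |mo u K| ≤ |bj K| * μ ^ (K + 1) * (M * (R ^ 2) ^ K) := by
          apply mul_le_mul_of_nonneg_left (hM K)
          positivity
      _ = μ * M * (|bj K| * (μ ^ K * (R ^ 2) ^ K)) := by ring
      _ = _ := by rw [hpow]
  constructor
  · intro hj
    apply fin
    have t1 : Tendsto (fun K : ℕ => bj K * μ ^ (K + 1) * mo u K) atTop
        (𝓝 (j0 x * (μ * mo u 0))) := by
      have h := ((hsum.hasSum.tendsto_sum_nat).comp (tendsto_add_atTop_nat 1)).mul_const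
        (μ * mo u 0)
      refine h.congr fun K => ?_
      rw [← sum1 μ R (mo u) hm K]
      simp only [Function.comp_apply]
      rw [Finset.sum_mul]
      refine Finset.sum_congr rfl fun k _ => ?_
      rw [← hpow]
      ring
    have t2 : Tendsto (fun K : ℕ => bj K * μ ^ (K + 1) * mo u K) atTop (𝓝 0) := by
      have h := ((hsum.tendsto_atTop_zero).abs).const_mul (μ * M)
      rw [abs_zero, mul_zero] at h
      exact squeeze_zero_norm (fun K => by rw [Real.norm_eq_abs]; exact hs K) h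
    have h3 := tendsto_nhds_unique t1 t2
    rcases mul_eq_zero.mp h3 with h | h
    · exact absurd h hj
    · rcases mul_eq_zero.mp h with h | h
      · exact absurd h hμ.ne'
      · exact h
  · intro hj φ hφ hort
    apply fin
    have t1 : Tendsto (fun K : ℕ => (K : ℝ) * (bj K * μ ^ (K + 1) * mo u K) -
        μ * ∑ k ∈ Finset.range K, bj k * μ ^ k * mo u k) atTop
        (𝓝 (x * deriv j0 x / 2 * (μ * mo u 0))) := by
      have h := (((hsum2.hasSum.tendsto_sum_nat).comp (tendsto_add_atTop_nat 1)).div_const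
        2).mul_const (μ * mo u 0)
      rw [← jde.2.2.2.1 x] at h
      refine h.congr fun K => ?_
      rw [← sum2 μ R (mo u) hm K]
      simp only [Function.comp_apply]
      rw [Finset.sum_div, Finset.sum_mul]
      refine Finset.sum_congr rfl fun k _ => ?_
      rw [← hpow]
      ring
    have t2 : Tendsto (fun K : ℕ => (K : ℝ) * (bj K * μ ^ (K + 1) * mo u K)) atTop (𝓝 0) := by
      have h := ((hsum2.tendsto_atTop_zero).abs).const_mul (μ * M / 2)
      rw [abs_zero, mul_zero] at h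
      refine squeeze_zero_norm (fun K => ?_) h
      rw [Real.norm_eq_abs, abs_mul, abs_of_nonneg (by positivity : (0 : ℝ) ≤ (K : ℝ))]
      calc (K : ℝ) * |bj K * μ ^ (K + 1) * mo u K| ≤ (K : ℝ) * (μ * M * |bj K * x ^ (2 * K)|) :=
            mul_le_mul_of_nonneg_left (hs K) (by positivity)
        _ = μ * M / 2 * |2 * (K : ℝ) * bj K * x ^ (2 * K)| := by
            rw [mul_assoc (2 * (K : ℝ)), abs_mul (2 * (K : ℝ)),
              abs_of_nonneg (by positivity : (0 : ℝ) ≤ 2 * (K : ℝ))]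
            ring
    have t3 : Tendsto (fun K : ℕ => ∑ k ∈ Finset.range K, bj k * μ ^ k * mo u k) atTop
        (𝓝 0) := by
      have h := ((hsum.tendsto_atTop_zero).abs).const_mul M
      rw [abs_zero, mul_zero] at h
      obtain ⟨N, hN⟩ := exists_nat_ge x
      have hev : ∀ᶠ K : ℕ in atTop,
          ‖∑ k ∈ Finset.range K, bj k * μ ^ k * mo u k‖ ≤ M * |bj K * x ^ (2 * K)| := by
        filter_upwards [eventually_ge_atTop N] with K hK
        have hKx : x ≤ (K : ℝ) := hN.trans (by exact_mod_cast hK)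
        have hfm := fin_mu 2 R
        have hi : Integrable (fun z => u z) (mu (BB 2 R)) :=
          (Lp.memLp u).integrable (by norm_num)
        have hiφ : Integrable (fun z => u z * φ z) (mu (BB 2 R)) :=
          (Lp.memLp u).integrable_mul (Lp.memLp φ)
        have e1 : ∑ k ∈ Finset.range K, bj k * μ ^ k * mo u k =
            ∫ z, ∑ k ∈ Finset.range K, bj k * μ ^ k * (u z * ev (rho 2 ^ k) z)
              ∂(mu (BB 2 R)) := by
          rw [integral_finsetSum _ (fun k _ => (int_ev EVO u _).const_mul _)]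
          refine Finset.sum_congr rfl fun k _ => ?_
          rw [integral_const_mul]
          rfl
        have hiS : Integrable (fun z => ∑ k ∈ Finset.range K,
            bj k * μ ^ k * (u z * ev (rho 2 ^ k) z)) (mu (BB 2 R)) :=
          integrable_finsetSum _ (fun k _ => (int_ev EVO u _).const_mul _)
        have e2 : ∑ k ∈ Finset.range K, bj k * μ ^ k * mo u k =
            ∫ z, (∑ k ∈ Finset.range K, bj k * μ ^ k * (u z * ev (rho 2 ^ k) z)) - u z * φ z
              ∂(mu (BB 2 R)) := by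
          rw [integral_sub hiS hiφ, hort, sub_zero, e1]
        rw [e2, Real.norm_eq_abs, ← hM1, ← integral_mul_const]
        refine (abs_integral_le_integral_abs).trans ?_
        refine integral_mono_ae (hiS.sub hiφ).abs (hi.abs.mul_const _) ?_
        filter_upwards [ae_BB 2 R, hφ] with z hz hφz
        show |(∑ k ∈ Finset.range K, bj k * μ ^ k * (u z * ev (rho 2 ^ k) z)) - u z * φ z| ≤
          |u z| * |bj K * x ^ (2 * K)|
        have e3 : (∑ k ∈ Finset.range K, bj k * μ ^ k * (u z * ev (rho 2 ^ k) z)) - u z * φ z =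
            -(u z * (j0 (x * ‖z‖ / R) -
              ∑ k ∈ Finset.range K, bj k * (x * ‖z‖ / R) ^ (2 * k))) := by
          rw [hφz, mul_sub, Finset.mul_sum, neg_sub]
          refine congrArg (fun t => t - _) ?_
          refine Finset.sum_congr rfl fun k _ => ?_
          rw [ev_rho EVO, hμd, pow_mul (x * ‖z‖ / R)]
          have : (x * ‖z‖ / R) ^ 2 = (x / R) ^ 2 * ‖z‖ ^ 2 := by
            field_simp
          rw [this, mul_pow]
          ring
        have hz1 : ‖z‖ ≤ R := (mem_BB hz).le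
        have hz2 : 0 ≤ x * ‖z‖ / R := by positivity
        have hz3 : x * ‖z‖ / R ≤ x := by
          rw [div_le_iff₀ hR]
          exact mul_le_mul_of_nonneg_left hz1 hx.le
        have h6 := jta.2 (x * ‖z‖ / R) K (by
          have h7 : x * ‖z‖ / R ≤ 2 * ((K : ℝ) + 1) := by linarith
          calc (x * ‖z‖ / R) ^ 2 ≤ (2 * ((K : ℝ) + 1)) ^ 2 := pow_le_pow_left₀ hz2 h7 2
            _ = 4 * ((K : ℝ) + 1) ^ 2 := by ring)
        rw [e3, abs_neg, abs_mul]
        apply mul_le_mul_of_nonneg_left _ (abs_nonneg _)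
        refine h6.trans ?_
        rw [abs_mul, abs_of_nonneg (by positivity : (0 : ℝ) ≤ x ^ (2 * K))]
        apply mul_le_mul_of_nonneg_left _ (abs_nonneg _)
        exact pow_le_pow_left₀ hz2 hz3 _
      exact squeeze_zero_norm' hev h
    have t4 := t2.sub (t3.const_mul μ)
    rw [mul_zero, sub_zero] at t4
    have h3 := tendsto_nhds_unique t1 t4
    rcases mul_eq_zero.mp h3 with h | h
    · exfalso
      have h5 : x * deriv j0 x ≠ 0 := mul_ne_zero hx.ne' hj
      apply h5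
      linarith
    · rcases mul_eq_zero.mp h with h | h
      · exact absurd h hμ.ne'
      · exact h

theorem spd (rde : RdeStmt) (jta : JtaStmt) (jde : JdeStmt) : SpdStmt :=
  spd0 Pool.Agent.BEO.Fin.evo Pool.Agent.BEO.Fin.lpo Pool.Agent.BEO.Fin.oro rde jta jde

end

end Pool.Agent.BED.H76
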